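import Mathlib
import Pool.Agent.TH353.CP.Defs
import Pool.Agent.TH353.CP.Ex3

/-!
Determination of all prime powers `q` for which `PG(3,q)` admits a cyclic packing: exactly the
prime powers `q ≡ 2 mod 3`.
-/

set_option autoImplicit false

namespace Pool.Agent.Results.MP_53cbe0_co.CyclicPackings

open Pool.Agent.TH353.CP

/-- Let `K` be a finite field with `q` elements and `V` a four-dimensional vector space over `K`.
The projective space of `V`, that is `PG(3,q)`, admits a cyclic packing if and only if
`q ≡ 2 mod 3`. -/
theorem result (K V : Type*) [Field K] [Finite K] [AddCommGroup V] [Module K V]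
    (hV : Module.finrank K V = 4) :
    (∃ P : Set (Set (Set (Projectivization K V))), IsCyclicPacking K V P) ↔ Nat.card K % 3 = 2 :=
  cyclic_packing_iff K V hV

end Pool.Agent.Results.MP_53cbe0_co.CyclicPackings
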